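import Pool.Agent.H4.SE.Targets

/-!
# MP_45b854_al: IO, paths which cross no edge with an inserted point
-/

set_option autoImplicit false

open Finset Equiv
open scoped Classical

namespace Pool.Agent.H77.SAE

open Pool.Agent.H4.SE
open Pool.Agent.H11.SAE (lp act verts)

theorem pf_IO (hI1 : T_I1) : T_IO := by
  intro r d T β _ σ o p hp j s m hm hZ k
  induction k with
  | zero =>
    intro _
    rfl
  | succ k ih =>
    intro hk
    have hk' : k < m := hk
    have h0 := ih hk'.le
    have hlt : k < (T j).length := lt_of_lt_of_le hk' hm
    have hx : (T j)[k]? = some (T j)[k] := List.getElem?_eq_getElem hlt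
    set x := (T j)[k] with hxd
    have hz := hZ k hk'
    obtain ⟨i, b⟩ := x
    obtain ⟨a1, a2, a3, a4⟩ := hI1 r β σ o i
    have e1 : pp (ins σ o) (T j) (k + 1) = lp (ins σ o) (i, b) * pp (ins σ o) (T j) k := by
      simp only [pp, hx]
    have e2 : pp σ (T j) (k + 1) = lp σ (i, b) * pp σ (T j) k := by
      simp only [pp, hx]
    have hlb : lb T (j, k) = some i := by
      simp only [lb, hx, Option.map_some]
    have hsg : sg T (j, k) = b := by
      simp only [sg, hx, Option.elim]
    rw [e1, e2, Perm.mul_apply, Perm.mul_apply, h0]
    cases b with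
    | true =>
      have hne : o i ≠ some (pp σ (T j) k s) := by
        intro h
        apply hz
        have hpi := hp i _ h
        simp only [ZZ, hlb, Option.map_some, rt, hsg, if_true]
        rw [hpi]
        simp
      have := a1 _ hne
      simpa [Pool.Agent.H11.SAE.lp] using this
    | false =>
      have hne : o i ≠ some ((σ i)⁻¹ (pp σ (T j) k s)) := by
        intro h
        apply hz
        have hpi := hp i _ h
        simp only [ZZ, hlb, Option.map_some, rt, hsg]
        rw [if_neg (by simp), e2, hpi]
        simp [Pool.Agent.H11.SAE.lp]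
      have := a3 _ hne
      simpa [Pool.Agent.H11.SAE.lp] using this

end Pool.Agent.H77.SAE
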